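import Pool.Agent.X159.LefMain

/-!
# A 2-convex open set of `ℝ⁴` that is not Lefschetz-2-convex

Negative answer to Q1 (with `k = 2`, `m = 4`). Let `Ω` be the complement in `ℝ⁴` of the two planes
`{z = t = 0}`, `{x = y = 0}` and the quarter plane `{y = t = 0, x ≥ 0, z ≥ 0}`, and `A` the plane
`{x = z = 1}`. Then `Ω ∩ A` is a punctured plane; its fundamental loop is homotopic in `Ω` to the
commutator loop in the punctured torus `(cos α, sin α, cos β, sin β)`, which is zero in homology.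
-/

set_option autoImplicit false

namespace Pool.Agent.Results.MP_e72e80_gt.NotLefschetz

open CategoryTheory AlgebraicTopology

/-- The inclusion of `Ω ∩ A` into `Ω` as a continuous map. -/
def incl {m : ℕ} (Ω : Set (EuclideanSpace ℝ (Fin m)))
    (A : AffineSubspace ℝ (EuclideanSpace ℝ (Fin m))) :
    C(↥(Ω ∩ (A : Set (EuclideanSpace ℝ (Fin m)))), ↥Ω) :=
  ⟨Set.inclusion Set.inter_subset_left, continuous_inclusion _⟩

/-- `Ω` is Lefschetz-`k`-convex: for every `k`-dimensional affine subspace `A`, the map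
`H_{k-1}(Ω ∩ A) → H_{k-1}(Ω)` of singular homology with integer coefficients induced by inclusion is
injective (a monomorphism). -/
def LefschetzConvex {m : ℕ} (k : ℕ) (Ω : Set (EuclideanSpace ℝ (Fin m))) : Prop :=
  ∀ A : AffineSubspace ℝ (EuclideanSpace ℝ (Fin m)),
    (A : Set (EuclideanSpace ℝ (Fin m))).Nonempty → Module.finrank ℝ A.direction = k →
    Mono (((singularHomologyFunctor (ModuleCat.{0} ℤ) (k - 1)).obj
      (ModuleCat.of ℤ ℤ)).map (TopCat.ofHom (incl Ω A)))

/-- There is an open subset of `ℝ⁴` which is `2`-convex but not Lefschetz-`2`-convex. -/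
theorem result : ∃ Ω : Set (EuclideanSpace ℝ (Fin 4)),
    IsOpen Ω ∧ Pool.Agent.X159.Lef.KConvex 2 Ω ∧ ¬ LefschetzConvex 2 Ω := by
  refine ⟨Pool.Agent.X159.Lef.Om, Pool.Agent.X159.Lef.isOpen_Om,
    Pool.Agent.X159.Lef.kconvex_Om, fun h => ?_⟩
  have h1 := h Pool.Agent.X159.Lef.pl ⟨!₂[1, 0, 1, 0], by
    show _ ∈ Pool.Agent.X159.Lef.pl
    rw [Pool.Agent.X159.Lef.mem_pl]
    simp⟩ Pool.Agent.X159.Lef.finrank_pl
  exact Pool.Agent.X159.Lef.not_mono h1

end Pool.Agent.Results.MP_e72e80_gt.NotLefschetz
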